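import Pool.Agent.Helper82.BR.St3

/-!
# Project BR8 (MP_514f88_co), module CFG: the configuration of eight points
-/

set_option autoImplicit false

namespace Pool.Agent.Helper44.BR

open Pool.Agent.Helper82.BR
open scoped ComplexConjugate

private lemma pw1 {w ρ : ℂ} (hw : w ^ 2 = w - 1) (h : ρ ^ 2 = w ∨ ρ ^ 3 = w) :
    ∀ k : ℕ, 1 ≤ k → k ≤ 6 → ρ ^ k ≠ 1 := by
  have h3 : w ^ 3 = -1 := by linear_combination (w + 1) * hw
  have hw1 : w ≠ 1 := by
    rintro rfl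
    norm_num at hw
  have hw0 : w ≠ 0 := by
    rintro rfl
    norm_num at hw
  have hwm : w ≠ -1 := by
    rintro rfl
    norm_num at hw
  have hw2 : w ^ 2 ≠ 1 := by
    intro e
    have h2 : w = 2 := by linear_combination e - hw
    rw [h2] at hw
    norm_num at hw
  have t0 : (2 : ℂ) ≠ 0 := two_ne_zero
  intro k hk1 hk6 e
  rcases h with h | h
  · interval_cases k
    · exact hw1 (by linear_combination (ρ + 1) * e - h)
    · exact hw1 (by linear_combination e - h)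
    · exact t0 (by
        linear_combination -(ρ ^ 3 + 1) * e + (ρ ^ 4 + ρ ^ 2 * w + w ^ 2) * h + h3)
    · exact hw2 (by linear_combination e - (ρ ^ 2 + w) * h)
    · have hr : ρ = -1 := by
        linear_combination -ρ * e + (ρ ^ 4 + ρ ^ 2 * w + w ^ 2) * h + h3
      exact hw1 (by rw [← h, hr]; norm_num)
    · exact t0 (by linear_combination -e + (ρ ^ 4 + ρ ^ 2 * w + w ^ 2) * h + h3)
  · interval_cases k
    · exact hw1 (by linear_combination (ρ ^ 2 + ρ + 1) * e - h)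
    · exact hw2 (by linear_combination (ρ ^ 4 + ρ ^ 2 + 1) * e - (ρ ^ 3 + w) * h)
    · exact hw1 (by linear_combination e - h)
    · exact hwm (by
        linear_combination -(ρ ^ 8 + ρ ^ 4 + 1) * e +
          (ρ ^ 9 + ρ ^ 6 * w + ρ ^ 3 * w ^ 2 + w ^ 3) * h + w * h3)
    · exact hw0 (by
        linear_combination -hw - (ρ ^ 10 + ρ ^ 5 + 1) * e +
          (ρ ^ 12 + ρ ^ 9 * w + ρ ^ 6 * w ^ 2 + ρ ^ 3 * w ^ 3 + w ^ 4) * h + w ^ 2 * h3)
    · exact hw2 (by linear_combination e - (ρ ^ 3 + w) * h)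

/-- Module CFG. -/
theorem hCFG (hCB : StCB) : StCFG := by
  classical
  intro S w ρ hw h hn hR h8 h0 h1 hρ hρ2 hρ3
  have hpw := pw1 hw h
  have hc : ρ * conj ρ = 1 := by
    rw [Complex.mul_conj, Complex.normSq_eq_norm_sq, hn]
    norm_num
  have hρ0 : ρ ≠ 0 := by
    rintro rfl
    simp at hn
  have n2 : ‖ρ ^ 2‖ = 1 := by rw [norm_pow, hn, one_pow]
  have n3 : ‖ρ ^ 3‖ = 1 := by rw [norm_pow, hn, one_pow]
  obtain ⟨b1, s1, z1, e1⟩ := hCB S hR h0 1 h1 ρ hρ norm_one hn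
  obtain ⟨b2, s2, z2, e2⟩ := hCB S hR h0 1 h1 (ρ ^ 3) hρ3 norm_one n3
  obtain ⟨b3, s3, z3, e3⟩ := hCB S hR h0 (ρ ^ 2) hρ2 (ρ ^ 3) hρ3 n2 n3
  have f1 : b1 = ρ * conj b1 := by
    rw [one_mul] at e1
    exact e1
  have f2 : b2 = ρ ^ 3 * conj b2 := by
    rw [one_mul] at e2
    exact e2
  have f3 : b3 = ρ ^ 5 * conj b3 := by
    rw [← pow_add] at e3
    exact e3
  obtain ⟨g, hg⟩ : ∃ g : Fin 7 → ℂ, g = ![1, b1, ρ, b2, ρ ^ 2, b3, ρ ^ 3] := ⟨_, rfl⟩
  have g0 : g 0 = 1 := by rw [hg]; rfl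
  have g1 : g 1 = b1 := by rw [hg]; rfl
  have g2 : g 2 = ρ := by rw [hg]; rfl
  have g3 : g 3 = b2 := by rw [hg]; rfl
  have g4 : g 4 = ρ ^ 2 := by rw [hg]; rfl
  have g5 : g 5 = b3 := by rw [hg]; rfl
  have g6 : g 6 = ρ ^ 3 := by rw [hg]; rfl
  have all : ∀ P : Fin 7 → Prop, P 0 → P 1 → P 2 → P 3 → P 4 → P 5 → P 6 → ∀ i, P i := by
    intro P p0 p1 p2 p3 p4 p5 p6 i
    fin_cases i <;> assumption
  have hD : ∀ i : Fin 7, g i = ρ ^ (i : ℕ) * conj (g i) := by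
    refine all _ ?_ ?_ ?_ ?_ ?_ ?_ ?_
    · rw [g0]
      simp
    · rw [g1]
      show b1 = ρ ^ 1 * conj b1
      rw [pow_one]
      exact f1
    · rw [g2]
      show ρ = ρ ^ 2 * conj ρ
      linear_combination -ρ * hc
    · rw [g3]
      exact f2
    · rw [g4, map_pow]
      show ρ ^ 2 = ρ ^ 4 * conj ρ ^ 2
      linear_combination -(ρ ^ 2) * (ρ * conj ρ + 1) * hc
    · rw [g5]
      exact f3
    · rw [g6, map_pow]
      show ρ ^ 3 = ρ ^ 6 * conj ρ ^ 3
      linear_combination -(ρ ^ 3) * ((ρ * conj ρ) ^ 2 + ρ * conj ρ + 1) * hc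
  have hz : ∀ i : Fin 7, g i ≠ 0 := by
    refine all _ ?_ ?_ ?_ ?_ ?_ ?_ ?_
    · rw [g0]; exact one_ne_zero
    · rw [g1]; exact z1
    · rw [g2]; exact hρ0
    · rw [g3]; exact z2
    · rw [g4]; exact pow_ne_zero _ hρ0
    · rw [g5]; exact z3
    · rw [g6]; exact pow_ne_zero _ hρ0
  have hS : ∀ i : Fin 7, g i ∈ S := by
    refine all _ ?_ ?_ ?_ ?_ ?_ ?_ ?_
    · rw [g0]; exact h1
    · rw [g1]; exact s1
    · rw [g2]; exact hρ
    · rw [g3]; exact s2
    · rw [g4]; exact hρ2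
    · rw [g5]; exact s3
    · rw [g6]; exact hρ3
  have hlt : ∀ i j : Fin 7, i < j → g i ≠ g j := by
    intro i j hij e
    have hij' : (i : ℕ) < j := hij
    have hj := j.isLt
    have hcz : conj (g i) ≠ 0 := (map_ne_zero _).2 (hz i)
    have a1 : ρ ^ (i : ℕ) * conj (g i) = ρ ^ (j : ℕ) * conj (g i) := by
      rw [← hD i]
      nth_rewrite 2 [e]
      rw [← hD j, e]
    have a2 : ρ ^ (i : ℕ) = ρ ^ (j : ℕ) := mul_right_cancel₀ hcz a1
    have a3 : ρ ^ (j : ℕ) = ρ ^ (i : ℕ) * ρ ^ ((j : ℕ) - i) := by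
      rw [← pow_add]
      congr 1
      omega
    have a4 : ρ ^ (i : ℕ) * ρ ^ ((j : ℕ) - i) = ρ ^ (i : ℕ) * 1 := by
      rw [← a3, mul_one, a2]
    exact hpw ((j : ℕ) - i) (by omega) (by omega)
      (mul_left_cancel₀ (pow_ne_zero _ hρ0) a4)
  have hinj : Function.Injective g := by
    intro i j e
    rcases lt_trichotomy i j with hh | hh | hh
    · exact absurd e (hlt i j hh)
    · exact hh
    · exact absurd e.symm (hlt j i hh)
  have hF : (insert 0 (Finset.univ.image g) : Finset ℂ).card = 8 := by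
    rw [Finset.card_insert_of_notMem, Finset.card_image_of_injective _ hinj, Finset.card_univ,
      Fintype.card_fin]
    intro hm
    obtain ⟨i, -, hi⟩ := Finset.mem_image.1 hm
    exact hz i hi
  have hsub : (insert 0 (Finset.univ.image g) : Finset ℂ) ⊆ S := by
    intro x hx
    rcases Finset.mem_insert.1 hx with rfl | hx
    · exact h0
    · obtain ⟨i, -, rfl⟩ := Finset.mem_image.1 hx
      exact hS i
  have hEq : (insert 0 (Finset.univ.image g) : Finset ℂ) = S :=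
    Finset.eq_of_subset_of_card_le hsub (by rw [h8, hF])
  refine ⟨b1, b2, b3, z1, z2, z3, f1, f2, f3, fun z => ?_⟩
  rw [← hEq, Finset.mem_insert, Finset.mem_image]
  constructor
  · rintro (hh | ⟨i, -, hi⟩)
    · exact Or.inl hh
    · refine Or.inr ?_
      revert hi
      revert i
      refine all _ ?_ ?_ ?_ ?_ ?_ ?_ ?_
      · intro hi; rw [g0] at hi; exact Or.inl hi.symm
      · intro hi; rw [g1] at hi; exact Or.inr (Or.inr (Or.inr (Or.inr (Or.inl hi.symm))))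
      · intro hi; rw [g2] at hi; exact Or.inr (Or.inl hi.symm)
      · intro hi; rw [g3] at hi
        exact Or.inr (Or.inr (Or.inr (Or.inr (Or.inr (Or.inl hi.symm)))))
      · intro hi; rw [g4] at hi; exact Or.inr (Or.inr (Or.inl hi.symm))
      · intro hi; rw [g5] at hi
        exact Or.inr (Or.inr (Or.inr (Or.inr (Or.inr (Or.inr hi.symm)))))
      · intro hi; rw [g6] at hi; exact Or.inr (Or.inr (Or.inr (Or.inl hi.symm)))
  · rintro (hh | hh | hh | hh | hh | hh | hh | hh)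
    · exact Or.inl hh
    · exact Or.inr ⟨0, Finset.mem_univ _, by rw [g0, hh]⟩
    · exact Or.inr ⟨2, Finset.mem_univ _, by rw [g2, hh]⟩
    · exact Or.inr ⟨4, Finset.mem_univ _, by rw [g4, hh]⟩
    · exact Or.inr ⟨6, Finset.mem_univ _, by rw [g6, hh]⟩
    · exact Or.inr ⟨1, Finset.mem_univ _, by rw [g1, hh]⟩
    · exact Or.inr ⟨3, Finset.mem_univ _, by rw [g3, hh]⟩
    · exact Or.inr ⟨5, Finset.mem_univ _, by rw [g5, hh]⟩

end Pool.Agent.Helper44.BR
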